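import Mathlib
import Pool.Agent.Helper91.IP.Defs
import Pool.Agent.Helper91.IP.St.Stubs

namespace Pool.Agent.Helper64.IP

open Finset Equiv Matrix
open Pool.Agent.Helper91.IP

variable {V : Type} [Fintype V] [DecidableEq V]

/-- IP-E9b (uses E1, E8, E9a) -/
theorem trace_sq (w : V → V → ℝ) (R : Fin 4 → Finset V)
    (hR : ∀ i j, i ≠ j → Disjoint (R i) (R j)) (T B : ℝ)
    (hB : ∀ i, trace (Kt w T * Kap (R i)ᶜ) ≤ B) : trace (Kt w (2 * T)) ≤ B ^ 2 := by
  obtain ⟨L, E, hE, hc, hexp⟩ := spectral_res (Am w) (Am_isSymm w)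
  have hcomm : ∀ a ∈ L, ∀ g, E a * Rm g = Rm g * E a := fun a ha g =>
    (hc a ha (Rm g) (Am_comm_Rm w g).symm).symm
  have hrep : ∀ a ∈ L, 4 * Real.sqrt (trace (E a)) ≤ ∑ i, trace (Kap (R i)ᶜ * E a) :=
    fun a ha => rep_lemma R hR (E a) (hE a ha).1 (hE a ha).2.1 (hcomm a ha)
  have hK : ∀ t : ℝ, Kt w t = ∑ a ∈ L, Real.exp (-(t * a)) • E a := fun t => hexp t
  have htr : ∀ i, trace (Kt w T * Kap (R i)ᶜ) =
      ∑ a ∈ L, Real.exp (-(T * a)) * trace (Kap (R i)ᶜ * E a) := by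
    intro i
    rw [hK, Finset.sum_mul, trace_sum]
    refine Finset.sum_congr rfl fun a _ => ?_
    rw [smul_mul, trace_smul, smul_eq_mul, trace_mul_comm]
  have hS : 4 * ∑ a ∈ L, Real.exp (-(T * a)) * Real.sqrt (trace (E a)) ≤ 4 * B := by
    calc 4 * ∑ a ∈ L, Real.exp (-(T * a)) * Real.sqrt (trace (E a))
        = ∑ a ∈ L, Real.exp (-(T * a)) * (4 * Real.sqrt (trace (E a))) := by
          rw [Finset.mul_sum]
          refine Finset.sum_congr rfl fun a _ => ?_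
          ring
      _ ≤ ∑ a ∈ L, Real.exp (-(T * a)) * ∑ i, trace (Kap (R i)ᶜ * E a) :=
          Finset.sum_le_sum fun a ha =>
            mul_le_mul_of_nonneg_left (hrep a ha) (Real.exp_pos _).le
      _ = ∑ i, trace (Kt w T * Kap (R i)ᶜ) := by
          simp_rw [htr, Finset.mul_sum]
          rw [Finset.sum_comm]
      _ ≤ ∑ _i : Fin 4, B := Finset.sum_le_sum fun i _ => hB i
      _ = 4 * B := by simp
  have hS' : ∑ a ∈ L, Real.exp (-(T * a)) * Real.sqrt (trace (E a)) ≤ B := by linarith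
  have hpos : ∀ a ∈ L, 0 ≤ Real.exp (-(T * a)) * Real.sqrt (trace (E a)) := fun a _ =>
    mul_nonneg (Real.exp_pos _).le (Real.sqrt_nonneg _)
  have h2 : trace (Kt w (2 * T)) =
      ∑ a ∈ L, (Real.exp (-(T * a)) * Real.sqrt (trace (E a))) ^ 2 := by
    rw [hK, trace_sum]
    refine Finset.sum_congr rfl fun a ha => ?_
    rw [trace_smul, smul_eq_mul, mul_pow, Real.sq_sqrt (hE a ha).2.2, ← Real.exp_nat_mul]
    congr 2
    push_cast
    ring
  rw [h2]
  calc ∑ a ∈ L, (Real.exp (-(T * a)) * Real.sqrt (trace (E a))) ^ 2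
      ≤ (∑ a ∈ L, Real.exp (-(T * a)) * Real.sqrt (trace (E a))) ^ 2 :=
        Finset.sum_sq_le_sq_sum_of_nonneg hpos
    _ ≤ B ^ 2 := by
        have h0 : 0 ≤ ∑ a ∈ L, Real.exp (-(T * a)) * Real.sqrt (trace (E a)) :=
          Finset.sum_nonneg hpos
        exact pow_le_pow_left₀ h0 hS' 2

end Pool.Agent.Helper64.IP
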